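import Pool.Agent.H57.CN.Targets

/-!
Row EXD of the board chn_modules: extension of exact maps of flags to dummy names.
-/

set_option autoImplicit false

namespace Pool.Agent.H26.CN2

open Pool.Agent.H68.BP Pool.Agent.H58.SF Pool.Agent.H53.NR
open Pool.Agent.H53.GC (strOn sigOf)
open Pool.Agent.H57.AR (tp ty Ty)
open Pool.Agent.H57.LH (Hmg)
open Pool.Agent.H44.KR (HB Amg Tyi TpOn LcN)
open Pool.Agent.H72.CH
open Pool.Agent.H57.CN
open Function

theorem isFl_inl {W : Type} {m : ℕ} {s : W → Fin m} (w : Fl s) :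
    IsFl (sD s) (fun i => Sum.inl (w.1 i)) := fun i => w.2 i

theorem agr_inl {W : Type} {m : ℕ} (w w' : Fin m → W) (j : ℕ) :
    Agr j (fun i => (Sum.inl (w i) : W ⊕ Fin m)) (fun i => Sum.inl (w' i)) ↔ Agr j w w' :=
  ⟨fun h i hi => Sum.inl_injective (h i hi), fun h i hi => congrArg _ (h i hi)⟩

theorem pf_EXD (hRLX : T_RLX) : T_EXD := by
  classical
  intro V ρ 𝔹 m lv hV W _ s g hg
  obtain ⟨M, hM⟩ := hRLX V ρ 𝔹 m lv hV (ρ.width + 2)
  have hlev := hV.lev
  obtain ⟨v₀⟩ := hV.ne
  have hfin : Finite {w : Fin m → W ⊕ Fin m // IsFl (sD s) w} := inferInstance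
  -- exactness of `g` on flags
  have hgl : ∀ w w' : Fl s, lv (g w.1) (g w'.1) =
      agl (fun i => (Sum.inl (w.1 i) : W ⊕ Fin m)) (fun i => Sum.inl (w'.1 i)) := by
    intro w w'
    have h1 : ∀ j ≤ m, (j ≤ lv (g w.1) (g w'.1) ↔ Agr j w.1 w'.1) :=
      hg w.1 w'.1 w.2 w'.2 (fun _ => Set.mem_univ _) (fun _ => Set.mem_univ _)
    apply le_antisymm
    · rw [le_agl (hlev.pl.le _ _), agr_inl]
      exact (h1 _ (hlev.pl.le _ _)).1 le_rfl
    · rw [h1 _ (agl_le _ _), ← agr_inl]
      exact agr_agl _ _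
  obtain ⟨f, hf1, hf2⟩ := hM {w : Fin m → W ⊕ Fin m // IsFl (sD s) w}
    (Fin (ρ.width + 2) → Fl s) (fun x x' => agl x.1 x'.1)
    (fun a i => ⟨fun k => Sum.inl ((a i).1 k), isFl_inl (a i)⟩) (fun a i => g (a i).1)
    { le := fun x y => plev_agl.le _ _
      self := fun x => plev_agl.self _
      sym := fun x y => plev_agl.sym _ _
      ult := fun x y z => plev_agl.ult _ _ _ }
    (fun x x' h => Subtype.ext (agl_eq h))
    (fun a i j => hgl (a i) (a j))
    (by
      intro U _
      by_cases hF : Nonempty (Fl s)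
      · obtain ⟨d⟩ := hF
        have hfl : ∀ u : {w : Fin m → W ⊕ Fin m // IsFl (sD s) w},
            IsFl s (fun i => Sum.elim id d.1 (u.1 i)) := by
          intro u i
          have h1 := u.2 i
          show s (Sum.elim id d.1 (u.1 i)) = i
          rcases h2 : u.1 i with x | k
          · rw [h2] at h1
            exact h1
          · rw [h2] at h1
            have h3 : k = i := h1
            show s (d.1 k) = i
            rw [h3]
            exact d.2 i
        refine ⟨fun u => g (fun i => Sum.elim id d.1 (u.1 i)), ?_, ?_⟩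
        · intro x _ x' _
          rw [hg _ _ (hfl x) (hfl x') (fun _ => Set.mem_univ _) (fun _ => Set.mem_univ _) _
            (agl_le _ _)]
          intro i hi
          show Sum.elim id d.1 (x.1 i) = Sum.elim id d.1 (x'.1 i)
          rw [agr_agl x.1 x'.1 i hi]
        · intro a _
          rfl
      · refine ⟨fun _ => v₀, ?_, ?_⟩
        · intro x _ x' _
          rw [hlev.pl.self]
          exact agl_le _ _
        · intro a _
          exact absurd ⟨a ⟨0, by omega⟩⟩ hF)
  refine ⟨fun u => if h : IsFl (sD s) u then f ⟨u, h⟩ else v₀, ?_, ?_⟩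
  · intro w w' hw hw' _ _ j hj
    simp only [dif_pos hw, dif_pos hw']
    rw [hf1]
    exact le_agl hj
  · refine tp_of_small (ρ.width + 2) (fun l => ?_) (by omega) (fun z => ?_)
    · have : ρ.ar l ≤ ρ.width := Finset.le_sup (f := ρ.ar) (Finset.mem_univ l)
      omega
    · have h1 := hf2 z
      have h2 : (fun i => (fun w : Fl s => (fun u : Fin m → W ⊕ Fin m =>
          if h : IsFl (sD s) u then f ⟨u, h⟩ else v₀) (fun i => Sum.inl (w.1 i))) (z i)) =
          fun i => f ⟨fun k => Sum.inl ((z i).1 k), isFl_inl (z i)⟩ := by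
        funext i
        exact dif_pos (isFl_inl (z i))
      rw [h2]
      exact h1

end Pool.Agent.H26.CN2
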