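import Pool.Agent.H57.CN.Targets

/-!
Row KNH of the board chn_modules: the class of the names structures is hereditary.
-/

set_option autoImplicit false

namespace Pool.Agent.H26.CN2

open Pool.Agent.H68.BP Pool.Agent.H58.SF Pool.Agent.H53.NR
open Pool.Agent.H53.GC (strOn sigOf)
open Pool.Agent.H57.AR (tp ty Ty)
open Pool.Agent.H57.LH (Hmg)
open Pool.Agent.H44.KR (HB Amg Tyi TpOn LcN)
open Pool.Agent.H72.CH
open Pool.Agent.H57.CN
open Function

theorem cp_map {X Y : Type} {m : ℕ} (f : X → Y) (z : Fin m → X) (h : Fin m) :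
    cp (fun i => f (z i)) h = fun i => Sum.map f id (cp z h i) := by
  funext i
  unfold cp
  split_ifs <;> rfl

theorem pf_KNH : T_KNH := by
  intro V ρ 𝔹 m lv R X Y f 𝕐 hf hK
  obtain ⟨s, g, hg, rfl⟩ := hK
  have hinj : Injective (Sum.map f (id : Fin m → Fin m)) := Sum.map_injective.2 ⟨hf, injective_id⟩
  have hsD : ∀ a, sD s (Sum.map f id a) = sD (fun x => s (f x)) a := by
    rintro (a | a) <;> rfl
  refine ⟨fun x => s (f x), fun u => g (fun i => Sum.map f id (u i)), ?_, ?_⟩
  · intro w w' hw hw' _ _ j hj
    have h1 := hg (fun i => Sum.map f id (w i)) (fun i => Sum.map f id (w' i))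
      (fun i => by rw [hsD]; exact hw i) (fun i => by rw [hsD]; exact hw' i)
      (fun _ => Set.mem_univ _) (fun _ => Set.mem_univ _) j hj
    refine h1.trans ⟨fun h i hi => hinj (h i hi), fun h i hi => congrArg _ (h i hi)⟩
  · have key : (fun (i : NI ρ m R) (z : NA ρ m R i → X) => NR 𝔹 lv s (dk g) i (fun q => f (z q))) =
        NR 𝔹 lv (fun x => s (f x)) (dk (fun u => g (fun i => Sum.map f id (u i)))) := by
      funext i z
      rcases i with i | p
      · rfl
      · have hd : ∀ (z : Fin m → X) (h : Fin m), dk (fun u => g (fun i => Sum.map f id (u i))) z h =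
            dk g (fun i => f (z i)) h := by
          intro z h
          exact congrArg g (cp_map f z h).symm
        apply propext
        constructor
        · rintro ⟨h1, x, h2, h3⟩
          refine ⟨h1, x, fun a => ?_, h3⟩
          rw [hd]
          exact h2 a
        · rintro ⟨h1, x, h2, h3⟩
          refine ⟨h1, x, fun a => ?_, h3⟩
          have := h2 a
          rw [hd] at this
          exact this
    rw [← key]
    rfl

end Pool.Agent.H26.CN2
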